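import Pool.Agent.KS6_29.EL.Main

/-!
# The hierarchies of restricted ET0L and EDT0L languages collapse exactly at two

The collapse threshold of the hierarchy of the `k`-restricted ET0L languages is `2`, and it is `2` as
well for the ET0L systems in which every table gives at most `m` words to each letter, for every `m`; in
particular (`m = 1`) for the EDT0L systems.
-/

set_option autoImplicit false

namespace Pool.Agent.Results.MP_4de4a9_lc.DeterministicToo

open Pool.Agent.X247.K3 Pool.Agent.KS6_29.EL

/-- The languages over the terminal alphabet `T` which are generated by `k`-restricted ET0L systems all of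
whose tables give at most `m` words to each letter. For `m = ⊤` these are the `k`-restricted ET0L
languages, for `m = 1` the `k`-restricted EDT0L (deterministic) languages. -/
def Fam (m : ℕ∞) (T : Type) (k : ℕ) : Set (Set (List T)) :=
  {L | ∃ G : ET0L T, G.Restricted k ∧ Deg m G ∧ G.language = L}

/-- The numbers `l ≥ 1` such that the families for `k` and `k + 1` are the same for all `k ≥ l` (and
all terminal alphabets). The threshold is the least of them. -/
def Thresholds (m : ℕ∞) : Set ℕ :=
  {l | 1 ≤ l ∧ ∀ k : ℕ, l ≤ k → ∀ T : Type, Fam m T k = Fam m T (k + 1)}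

/-- (1) The collapse threshold is `2`, for ET0L systems (`m = ⊤`), for EDT0L systems (`m = 1`) and for all
other bounds `m` on the number of the words for one letter in one table.
(2) For `k ≥ 2` the family is that of all ET0L languages with the bound `m`.
(3) Every ET0L system `G` has an equivalent 2-restricted system `G'` in normal form (each table rewrites
one letter, and replaces one further letter by a dead letter `F` or erases it), with the same bounds on
the nondeterminism, and with at most `14 |V| + 4 |H| + 19` letters.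
(4) The language of the words `a^n # b^n $ c^n` is a 2-restricted EDT0L language but not a 1-restricted
ET0L language. -/
theorem result :
    (∀ m : ℕ∞, 1 ≤ m → IsLeast (Thresholds m) 2) ∧
    (∀ m : ℕ∞, 1 ≤ m → ∀ (T : Type) (k : ℕ), 2 ≤ k →
      Fam m T k = {L | ∃ G : ET0L T, Deg m G ∧ G.language = L}) ∧
    (∀ (T : Type) (G : ET0L T), ∃ G' : ET0L T, G'.Restricted 2 ∧ G'.language = G.language ∧
      Normal G' ∧ (∀ m : ℕ∞, 1 ≤ m → Deg m G → Deg m G') ∧
      Nat.card G'.V ≤ 14 * Nat.card G.V + 4 * Nat.card G.H + 19) ∧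
    {w | ∃ n, w = W n} ∈ Fam 1 (Fin 5) 2 ∧ {w | ∃ n, w = W n} ∉ Fam ⊤ (Fin 5) 1 := by
  have h1 : ∀ m : ℕ∞, 1 ≤ m → ∀ (T : Type) (k : ℕ), 2 ≤ k →
      Fam m T k = {L | ∃ G : ET0L T, Deg m G ∧ G.language = L} := by
    intro m hm T k hk
    ext L
    constructor
    · rintro ⟨G, -, h0, h⟩
      exact ⟨G, h0, h⟩
    · rintro ⟨G, h0, h⟩
      obtain ⟨G', h2, h3, -, h4, -⟩ := exists_two' G
      exact ⟨G', fun t => (h2 t).trans hk, h4 m hm h0, h3.trans h⟩
  have hW : ∀ m : ℕ∞, 1 ≤ m → {w | ∃ n, w = W n} ∈ Fam m (Fin 5) 2 := by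
    intro m hm
    rw [h1 m hm _ 2 le_rfl]
    refine ⟨GW, fun h c => ?_, language_GW⟩
    show (Set.encard {ev h c}) ≤ m
    rw [Set.encard_singleton]
    exact hm
  have h3 : ∀ m : ℕ∞, {w | ∃ n, w = W n} ∉ Fam m (Fin 5) 1 := by
    rintro m ⟨G, h4, -, h5⟩
    exact not_one G h4 h5
  refine ⟨fun m hm => ⟨⟨by norm_num, fun k hk T => ?_⟩, ?_⟩, h1, fun _ G => exists_two' G,
    hW 1 le_rfl, h3 ⊤⟩
  · rw [h1 m hm T k hk, h1 m hm T (k + 1) (by omega)]
  · intro l hl
    by_contra hlt
    have hl1 : l = 1 := by
      have := hl.1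
      omega
    have h6 := hl.2 1 (by omega) (Fin 5)
    apply h3 m
    rw [h6]
    exact hW m hm

end Pool.Agent.Results.MP_4de4a9_lc.DeterministicToo
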